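import Pool.Agent.W2helper63.LL.Stm

/-!
# PIECE INV: invariance properties of `f`
-/

set_option autoImplicit false

noncomputable section

namespace Pool.Agent.W2helper46.LL

open IsDedekindDomain Polynomial Matrix WithZero
open Pool.Agent.W2helper63.LL
open scoped Classical

theorem val_inf (x : K) : Valued.v (algebraMap K Kinf x) = RatFunc.inftyValuationDef (ZMod 2) x := by
  rw [RatFunc.valuedCompletionAtInfty.def]
  exact @Valued.extensionValuation_apply_coe K _ _ _ (RatFunc.inftyValued (ZMod 2)) x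

theorem val_T : Valued.v (Tu : Kinf) = exp (1 : ℤ) := by
  change Valued.v (algebraMap K Kinf RatFunc.X) = _
  rw [val_inf]
  exact RatFunc.inftyValuation.X (ZMod 2)

theorem val_pinf : Valued.v (pinf : Kinf) = exp (-1 : ℤ) := by
  unfold pinf
  rw [Units.val_inv_eq_inv_val, map_inv₀, val_T, WithZero.exp_neg]

section sc

variable (S : Type) [CommRing S]

/-- scalar matrices -/
def sc : Sˣ →* GL (Fin 2) S where
  toFun z := bor z 0 z
  map_one' := by
    apply Units.ext
    ext i j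
    fin_cases i <;> fin_cases j <;> simp [bor]
  map_mul' a b := by
    apply Units.ext
    ext i j
    fin_cases i <;> fin_cases j <;> simp [bor, Matrix.mul_apply, Fin.sum_univ_two]

variable {S}

theorem sc_comm (z : Sˣ) (g : GL (Fin 2) S) : sc S z * g = g * sc S z := by
  apply Units.ext
  ext i j
  fin_cases i <;> fin_cases j <;>
    simp [sc, bor, Matrix.mul_apply, Fin.sum_univ_two, mul_comm]

end sc

/-- scalar matrices with adelic entries -/
def scA : Idele →* GA := MonoidHom.prodMap (sc Af) (sc Kinf)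

theorem borA_eq (z : Idele) : borA z 0 z = scA z := rfl

theorem zz_eq : zz = scA (1, pinf) := Prod.ext (map_one (sc Af)).symm rfl

theorem dg_sc (κ : Kˣ) : dg (sc K κ) = scA (dgi κ) := by
  refine Prod.ext ?_ ?_
  · apply Units.ext
    ext i j
    fin_cases i <;> fin_cases j <;> simp [dg, scA, sc, bor, dgi]
  · apply Units.ext
    ext i j
    fin_cases i <;> fin_cases j <;> simp [dg, scA, sc, bor, dgi]

theorem scA_comm (z : Idele) (g : GA) : scA z * g = g * scA z :=
  Prod.ext (sc_comm z.1 g.1) (sc_comm z.2 g.2)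

theorem zz_comm (n : ℤ) (g : GA) : zz ^ n * g = g * zz ^ n := by
  rw [zz_eq, ← map_zpow, scA_comm]

theorem dg_mul (γ γ' : GL (Fin 2) K) : dg (γ * γ') = dg γ * dg γ' := by
  unfold dg
  rw [map_mul, map_mul]
  rfl

theorem dg_one : dg 1 = 1 := by
  unfold dg
  rw [map_one, map_one]
  rfl

theorem dg_inv (γ : GL (Fin 2) K) : dg γ⁻¹ = (dg γ)⁻¹ := by
  apply eq_inv_of_mul_eq_one_left
  rw [← dg_mul, inv_mul_cancel, dg_one]

/-- unit scalars are integral -/
theorem integral_sc {L : Type} [Field L] [Valued L (WithZero (Multiplicative ℤ))] (u : Lˣ)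
    (hu : Valued.v (u : L) = 1) : Integral (sc L u) := by
  intro i j
  rw [← map_inv]
  have h1 : Valued.v ((u⁻¹ : Lˣ) : L) = 1 := by
    rw [Units.val_inv_eq_inv_val, map_inv₀, hu, inv_one]
  fin_cases i <;> fin_cases j <;> simp [sc, bor, hu]

theorem pr_sc (v : Pl) (u : Idele) : pr v (scA u) = sc (Kv v) (Units.map (ev v).toMonoidHom u.1) := by
  apply Units.ext
  ext i j
  fin_cases i <;> fin_cases j <;> simp [pr, scA, sc, bor]

theorem inD_sc (u : Idele) (h1 : ∀ v : Pl, Valued.v ((u.1 : Af) v) = 1)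
    (h2 : Valued.v (u.2 : Kinf) = 1) : inD (scA u) ∧ chi (scA u) = 1 := by
  refine ⟨⟨fun v => ?_, ?_, ?_, ?_⟩, ?_⟩
  · rw [pr_sc]
    exact integral_sc _ (h1 v)
  · exact integral_sc _ h2
  · rw [pr_sc]
    simp [sc, bor]
  · simp [scA, sc, bor]
  · unfold chi sgn
    rw [pr_sc]
    have h3 := h1 v1
    have e : (sc (Kv v1) (Units.map (ev v1).toMonoidHom u.1)).1.map rd =
        (1 : Matrix (Fin 2) (Fin 2) (ZMod 2)) := by
      have h4 : rd (ev v1 (u.1 : Af)) = 1 := by
        unfold rd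
        rw [if_neg]
        rw [not_lt]
        exact h3.ge
      have h5 : rd (0 : Kv v1) = 0 := by
        unfold rd
        rw [if_pos]
        rw [map_zero]
        exact zero_lt_one
      ext i j
      fin_cases i <;> fin_cases j <;> simp [sc, bor, h4, h5]
    rw [e]
    unfold sgnM
    rw [if_pos (Or.inl rfl)]

/-- **INV** -/
theorem inv : S_INV := by
  rintro ⟨-, hD1, hDm, hDi, hχ, hχ1⟩ hFRV hCN f ⟨hf1, hf2⟩
  have hχm := hχ hFRV
  have p1 : ∀ γ g, f (dg γ * g) = f g := by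
    intro γ g
    by_cases hg : ∃ (γ : GL (Fin 2) K) (n : ℤ) (k : GA), inD k ∧ g = dg γ * zz ^ n * k
    · obtain ⟨γ', n, k, hk, rfl⟩ := hg
      rw [hf1 _ _ _ hk, ← mul_assoc, ← mul_assoc, ← dg_mul, hf1 _ _ _ hk]
    · rw [hf2 g hg, hf2]
      rintro ⟨γ', n, k, hk, h⟩
      apply hg
      refine ⟨γ⁻¹ * γ', n, k, hk, ?_⟩
      rw [dg_mul, dg_inv, mul_assoc, mul_assoc, ← mul_assoc (dg γ'), ← h, inv_mul_cancel_left]
  have pz : ∀ (n : ℤ) g, f (zz ^ n * g) = f g := by
    intro m g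
    by_cases hg : ∃ (γ : GL (Fin 2) K) (n : ℤ) (k : GA), inD k ∧ g = dg γ * zz ^ n * k
    · obtain ⟨γ', n, k, hk, rfl⟩ := hg
      rw [hf1 _ _ _ hk]
      have : zz ^ m * (dg γ' * zz ^ n * k) = dg γ' * zz ^ (m + n) * k := by
        rw [← mul_assoc, ← mul_assoc, zz_comm, mul_assoc (dg γ'), ← _root_.zpow_add]
      rw [this, hf1 _ _ _ hk]
    · rw [hf2 g hg, hf2]
      rintro ⟨γ', n, k, hk, h⟩
      apply hg
      refine ⟨γ', -m + n, k, hk, ?_⟩
      have : g = zz ^ (-m) * (zz ^ m * g) := by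
        rw [← mul_assoc, ← _root_.zpow_add, neg_add_cancel, zpow_zero, one_mul]
      rw [this, h, ← mul_assoc, ← mul_assoc, zz_comm, mul_assoc (dg γ'), ← _root_.zpow_add]
  have p3 : ∀ g k, inD k → f (g * k) = chi k * f g := by
    intro g k hk
    by_cases hg : ∃ (γ : GL (Fin 2) K) (n : ℤ) (k : GA), inD k ∧ g = dg γ * zz ^ n * k
    · obtain ⟨γ', n, k', hk', rfl⟩ := hg
      rw [hf1 _ _ _ hk', mul_assoc, hf1 _ _ _ (hDm _ _ hk' hk), hχm _ _ hk' hk, mul_comm]
    · rw [hf2 g hg, hf2, mul_zero]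
      rintro ⟨γ', n, k', hk', h⟩
      apply hg
      refine ⟨γ', n, k' * k⁻¹, hDm _ _ hk' (hDi _ hk), ?_⟩
      rw [← mul_assoc, ← h, mul_inv_cancel_right]
  refine ⟨p1, ?_, p3⟩
  intro z g
  obtain ⟨κ, hκ, hκv⟩ := hCN z.1
  set κu : Kˣ := Units.mk0 κ hκ with hκu
  -- the valuation at infinity
  have hz0 : Valued.v (z.2 : Kinf) ≠ 0 := (Valuation.ne_zero_iff _).2 z.2.ne_zero
  have hk0 : Valued.v (algebraMap K Kinf κ) ≠ 0 := by
    rw [Valuation.ne_zero_iff]
    exact (_root_.map_ne_zero _).2 hκ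
  set n : ℤ := log (Valued.v (algebraMap K Kinf κ)) - log (Valued.v (z.2 : Kinf)) with hn
  set u : Idele := (dgi κu)⁻¹ * ((1, pinf) : Idele) ^ (-n) * z with hu
  have hu1 : ∀ v : Pl, Valued.v ((u.1 : Af) v) = 1 := by
    intro v
    have e1 : ((u.1 : Af) v) = ((Units.map (ev v).toMonoidHom u.1 : (Kv v)ˣ) : Kv v) := rfl
    have e2 : u.1 = (Units.map (algebraMap K Af).toMonoidHom κu)⁻¹ * z.1 := by
      rw [hu]
      simp [dgi]
    rw [e1, e2, map_mul, map_inv, Units.val_mul, Units.val_inv_eq_inv_val, map_mul, map_inv₀]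
    have e3 : Valued.v ((Units.map (ev v).toMonoidHom
        (Units.map (algebraMap K Af).toMonoidHom κu) : (Kv v)ˣ) : Kv v) = v.valuation K κ := by
      change Valued.v ((κ : K) : Kv v) = _
      exact HeightOneSpectrum.valuedAdicCompletion_eq_valuation' v κ
    have e4 : Valued.v ((Units.map (ev v).toMonoidHom z.1 : (Kv v)ˣ) : Kv v) = v.valuation K κ :=
      hκv v
    rw [e3, e4, inv_mul_cancel₀]
    rw [Valuation.ne_zero_iff]
    exact hκ
  have hu2 : Valued.v (u.2 : Kinf) = 1 := by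
    have e2 : (u.2 : Kinf) = (algebraMap K Kinf κ)⁻¹ * (pinf : Kinf) ^ (-n) * (z.2 : Kinf) := by
      rw [hu]
      simp [dgi, hκu]
    rw [e2, map_mul, map_mul, map_inv₀, map_zpow₀, val_pinf, ← WithZero.exp_zsmul]
    rw [← exp_log hk0, ← exp_log hz0, ← WithZero.exp_neg, ← WithZero.exp_add, ← WithZero.exp_add,
      ← WithZero.exp_zero]
    congr 1
    rw [hn]
    simp only [smul_eq_mul]
    ring
  obtain ⟨hkD, hkχ⟩ := inD_sc u hu1 hu2
  have hdec : borA z 0 z = dg (sc K κu) * zz ^ n * scA u := by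
    rw [borA_eq, dg_sc, zz_eq, ← map_zpow, ← map_mul, ← map_mul, hu]
    congr 1
    rw [_root_.zpow_neg]
    have : ∀ a b c : Idele, c = a * b * (a⁻¹ * b⁻¹ * c) := by
      intro a b c
      rw [← _root_.mul_inv, ← mul_assoc, mul_inv_cancel, one_mul]
    exact this _ _ _
  rw [hdec, mul_assoc, scA_comm, mul_assoc, p1, ← mul_assoc, p3 _ _ hkD, hkχ, one_mul, pz]

end Pool.Agent.W2helper46.LL
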