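import Pool.Agent.W2helper2.LL.BJStm
import Pool.Agent.W2helper46.LL.INV
import Pool.Agent.W2helper44.LL.FR

/-!
# PIECE ASY of project LL, stage 2
-/

set_option autoImplicit false

noncomputable section

namespace Pool.Agent.W2helper46.LL

open IsDedekindDomain Polynomial Matrix WithZero
open Pool.Agent.W2helper63.LL Pool.Agent.W2helper2.LL
open scoped Classical

theorem val_io (p : R) (hp : p ≠ 0) : Valued.v (io p) = exp (p.natDegree : ℤ) := by
  change Valued.v (algebraMap K Kinf (algebraMap R K p)) = _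
  rw [val_inf]
  exact RatFunc.inftyValuation.polynomial (ZMod 2) hp

/-- approximation by polynomials -/
theorem app_poly (y : Kinf) : ∃ r : R, Valued.v (y - io r) < 1 := by
  obtain ⟨κ, hκ⟩ := FR.approx (algebraMap K Kinf) FR.dense_inf y
  have hb0 : κ.denom ≠ 0 := RatFunc.denom_ne_zero κ
  have hab : algebraMap R K κ.num / algebraMap R K κ.denom = κ := RatFunc.num_div_denom κ
  have hbK : algebraMap R K κ.denom ≠ 0 := by
    rw [Ne, map_eq_zero_iff _ (RatFunc.algebraMap_injective (ZMod 2))]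
    exact hb0
  refine ⟨κ.num / κ.denom, ?_⟩
  have h1 : κ - algebraMap R K (κ.num / κ.denom) =
      algebraMap R K (κ.num % κ.denom) / algebraMap R K κ.denom := by
    rw [eq_div_iff hbK, sub_mul, ← map_mul]
    nth_rewrite 1 [← hab]
    rw [div_mul_cancel₀ _ hbK, ← map_sub]
    congr 1
    rw [sub_eq_iff_eq_add, mul_comm, add_comm]
    exact (EuclideanDomain.div_add_mod κ.num κ.denom).symm
  have h2 : Valued.v (algebraMap K Kinf κ - io (κ.num / κ.denom)) < 1 := by
    have e : algebraMap K Kinf κ - io (κ.num / κ.denom) =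
        io (κ.num % κ.denom) / io κ.denom := by
      change algebraMap K Kinf κ - algebraMap K Kinf (algebraMap R K (κ.num / κ.denom)) =
        algebraMap K Kinf (algebraMap R K (κ.num % κ.denom)) /
          algebraMap K Kinf (algebraMap R K κ.denom)
      rw [← map_sub, h1, map_div₀]
    rw [e, map_div₀, val_io _ hb0]
    by_cases hz : κ.num % κ.denom = 0
    · rw [hz, map_zero, map_zero, zero_div]
      exact zero_lt_one
    · rw [val_io _ hz, div_lt_one₀ (by exact exp_pos), exp_lt_exp]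
      have h5 : (κ.num % κ.denom).natDegree < κ.denom.natDegree :=
        natDegree_lt_natDegree hz (EuclideanDomain.mod_lt κ.num hb0)
      exact_mod_cast h5
  have h3 : y - io (κ.num / κ.denom) =
      -(algebraMap K Kinf κ - y) + (algebraMap K Kinf κ - io (κ.num / κ.denom)) := by ring
  rw [h3]
  refine lt_of_le_of_lt (Valued.v.map_add _ _) (max_lt ?_ h2)
  rw [Valuation.map_neg]
  exact hκ

section mats

variable {S : Type} [CommRing S]

theorem bor_mul (a d a' d' : Sˣ) (x x' : S) :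
    bor a x d * bor a' x' d' = bor (a * a') (a * x' + x * d') (d * d') := by
  apply Units.ext
  ext i j
  fin_cases i <;> fin_cases j <;> simp [bor, Matrix.mul_apply, Fin.sum_univ_two]

theorem map_bor {S' : Type} [CommRing S'] (φ : S →+* S') (r : S) :
    GeneralLinearGroup.map φ (bor 1 r 1) = bor 1 (φ r) 1 := by
  apply Units.ext
  ext i j
  fin_cases i <;> fin_cases j <;> simp [bor]

end mats

/-- upper triangular matrices -/
theorem ex_bor {L : Type} [Field L] (h : GL (Fin 2) L) (h0 : h.1 1 0 = 0) :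
    ∃ (a : Lˣ) (x : L) (d : Lˣ), h = bor a x d := by
  have hd : h.1.det ≠ 0 := h.det_ne_zero
  rw [Matrix.det_fin_two, h0, mul_zero, sub_zero] at hd
  refine ⟨Units.mk0 _ (left_ne_zero_of_mul hd), h.1 0 1, Units.mk0 _ (right_ne_zero_of_mul hd), ?_⟩
  apply Units.ext
  ext i j
  fin_cases i <;> fin_cases j <;> simp [bor, h0]

section loc

variable {L : Type} [Field L] [Valued L (WithZero (Multiplicative ℤ))]

theorem iw_nl {x : L} (hx : Valued.v x < 1) : Iw (nl x) := by
  refine ⟨?_, by simpa [nl] using hx⟩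
  intro i j
  have h1 : Valued.v x ≤ 1 := hx.le
  fin_cases i <;> fin_cases j <;> simp [nl, h1]

theorem iw_nu {x : L} (hx : Valued.v x ≤ 1) : Iw (nu x) := by
  refine ⟨?_, by simp [nu, bor]⟩
  intro i j
  fin_cases i <;> fin_cases j <;> simp [nu, bor, hx]

theorem iw_bor {u : Lˣ} {x : L} (hu : Valued.v (u : L) = 1) (hx : Valued.v x ≤ 1) :
    Iw (bor u x 1) := by
  refine ⟨?_, by simp [bor]⟩
  intro i j
  fin_cases i <;> fin_cases j <;> simp [bor, hu, hx]

theorem iw_sbs {u : Lˣ} {x : L} (hu : Valued.v (u : L) = 1) (hx : Valued.v x < 1) :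
    Iw (sw * bor u x 1 * sw) := by
  have h1 : Valued.v x ≤ 1 := hx.le
  refine ⟨?_, by simp [sw, bor, Matrix.mul_apply, Fin.sum_univ_two, hx]⟩
  intro i j
  rw [_root_.mul_inv_rev, _root_.mul_inv_rev]
  fin_cases i <;> fin_cases j <;>
    simp [sw, bor, Matrix.mul_apply, Fin.sum_univ_two, hu, h1]

/-- the Iwasawa decomposition with respect to the Iwahori subgroup -/
theorem iwd (g : GL (Fin 2) L) : ∃ (a : Lˣ) (x : L) (d : Lˣ) (i : GL (Fin 2) L), Iw i ∧
    ((Valued.v (g.1 1 0) < Valued.v (g.1 1 1) ∧ g = bor a x d * i) ∨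
      (¬ Valued.v (g.1 1 0) < Valued.v (g.1 1 1) ∧ g = bor a x d * sw * i)) := by
  by_cases hc : Valued.v (g.1 1 0) < Valued.v (g.1 1 1)
  · have hd0 : g.1 1 1 ≠ 0 := by
      intro h
      rw [h, map_zero] at hc
      exact not_lt_zero hc
    obtain ⟨a, x, d, h⟩ := ex_bor (g * nl (-(g.1 1 0 / g.1 1 1))) (by
      simp [nl, Matrix.mul_apply, Fin.sum_univ_two]
      field_simp
      ring)
    refine ⟨a, x, d, nl (g.1 1 0 / g.1 1 1), iw_nl ?_, Or.inl ⟨hc, ?_⟩⟩
    · rw [map_div₀]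
      exact (div_lt_one₀ (lt_of_le_of_lt zero_le hc)).2 hc
    · rw [← h, mul_assoc]
      have : nl (-(g.1 1 0 / g.1 1 1)) * nl (g.1 1 0 / g.1 1 1) = 1 := by
        apply Units.ext
        ext i j
        fin_cases i <;> fin_cases j <;> simp [nl, Matrix.mul_apply, Fin.sum_univ_two]
      rw [this, mul_one]
  · have hc0 : g.1 1 0 ≠ 0 := by
      intro h
      rw [h, map_zero] at hc
      have hd : g.1.det ≠ 0 := g.det_ne_zero
      rw [Matrix.det_fin_two, h, mul_zero, sub_zero] at hd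
      exact hc (by
        rw [zero_lt_iff, Valuation.ne_zero_iff]
        exact right_ne_zero_of_mul hd)
    obtain ⟨a, x, d, h⟩ := ex_bor (g * nu (-(g.1 1 1 / g.1 1 0)) * sw) (by
      simp [nu, bor, sw, Matrix.mul_apply, Fin.sum_univ_two]
      field_simp
      ring)
    refine ⟨a, x, d, nu (g.1 1 1 / g.1 1 0), iw_nu ?_, Or.inr ⟨hc, ?_⟩⟩
    · rw [map_div₀]
      have h1 : 0 < Valued.v (g.1 1 0) := by
        rw [zero_lt_iff, Valuation.ne_zero_iff]
        exact hc0
      exact (div_le_one₀ h1).2 (not_lt.1 hc)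
    · rw [← h, mul_assoc, mul_assoc, mul_assoc]
      have : (nu (-(g.1 1 1 / g.1 1 0)) : GL (Fin 2) L) * (sw * (sw * nu (g.1 1 1 / g.1 1 0))) = 1 := by
        apply Units.ext
        ext i j
        fin_cases i <;> fin_cases j <;> simp [nu, bor, sw, Matrix.mul_apply, Fin.sum_univ_two]
      rw [this, mul_one]

end loc

theorem sw_sw {L : Type} [Field L] : (sw : GL (Fin 2) L) * sw = 1 := by
  apply Units.ext
  ext i j
  fin_cases i <;> fin_cases j <;> simp [sw, Matrix.mul_apply, Fin.sum_univ_two]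

theorem left_nu {f : GL (Fin 2) Kinf → ℂ} (hf : IsEis f) (r : R) (g : GL (Fin 2) Kinf) :
    f (bor 1 (io r) 1 * g) = f g := by
  rw [← map_bor io r]
  exact hf.left _ _

theorem val_Tu_pow (n : ℕ) : Valued.v ((Tu ^ n : Kinfˣ) : Kinf) = exp (n : ℤ) := by
  rw [Units.val_pow_eq_pow_val, map_pow, val_T, ← WithZero.exp_nsmul]
  simp

/-- values on upper triangular matrices -/
theorem val_ut {f : GL (Fin 2) Kinf → ℂ} (hf : IsEis f) (A B : Kinfˣ) (x : Kinf) (n : ℕ)
    (h : Valued.v (A : Kinf) = Valued.v (B : Kinf) * exp (n : ℤ)) :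
    f (bor A x B) = f (bor (Tu ^ n) 0 1) ∧ f (bor A x B * sw) = f (bor (Tu ^ n) 0 1 * sw) := by
  obtain ⟨r, hr⟩ := app_poly (x * (B⁻¹ : Kinfˣ))
  set T' : Kinfˣ := Tu ^ n with hT'
  set e : Kinf := (x * (B⁻¹ : Kinfˣ) - io r) * (T'⁻¹ : Kinfˣ) with he
  set u : Kinfˣ := A * B⁻¹ * T'⁻¹ with hu
  have hT : Valued.v (T' : Kinf) = exp (n : ℤ) := val_Tu_pow n
  have hB : Valued.v (B : Kinf) ≠ 0 := by
    rw [Valuation.ne_zero_iff]
    exact B.ne_zero
  have hvu : Valued.v (u : Kinf) = 1 := by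
    rw [hu, Units.val_mul, Units.val_mul, map_mul, map_mul, h, Units.val_inv_eq_inv_val,
      Units.val_inv_eq_inv_val, map_inv₀, map_inv₀, hT]
    rw [mul_comm (Valued.v (B : Kinf)), mul_assoc (exp (n : ℤ)), mul_inv_cancel₀ hB, mul_one,
      mul_inv_cancel₀ exp_ne_zero]
  have hve : Valued.v e < 1 := by
    rw [he, map_mul, Units.val_inv_eq_inv_val T', map_inv₀, hT, ← WithZero.exp_neg]
    refine lt_of_le_of_lt (mul_le_of_le_one_right' ?_) hr
    rw [← WithZero.exp_zero, exp_le_exp]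
    omega
  have key : bor A x B = bor 1 (io r) 1 * (bor T' 0 1 * bor u e 1) * bor B 0 B := by
    rw [bor_mul, bor_mul, bor_mul]
    congr 1
    · rw [hu, one_mul]
      rw [mul_comm (A * B⁻¹) T'⁻¹, mul_inv_cancel_left, inv_mul_cancel_right]
    · rw [he]
      simp only [Units.val_one, one_mul, mul_one, mul_zero, zero_add]
      have hB' : (B : Kinf) ≠ 0 := B.ne_zero
      have hT' : (T' : Kinf) ≠ 0 := T'.ne_zero
      simp only [Units.val_inv_eq_inv_val]
      field_simp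
      ring
    · simp
  have hz : ∀ g : GL (Fin 2) Kinf, bor B 0 B * g = g * bor B 0 B := fun g => sc_comm B g
  constructor
  · rw [key, hf.cen, left_nu hf, hf.iw _ _ (iw_bor hvu hve.le)]
  · rw [key, mul_assoc _ (bor B 0 B), hz, ← mul_assoc, hf.cen, mul_assoc, left_nu hf]
    have : bor T' 0 1 * bor u e 1 * sw = (bor T' 0 1 * sw) * (sw * bor u e 1 * sw) := by
      have h3 : (sw : GL (Fin 2) Kinf) * (sw * bor u e 1 * sw) = bor u e 1 * sw := by
        rw [mul_assoc sw, ← mul_assoc sw sw, sw_sw, one_mul]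
      rw [mul_assoc (bor T' 0 1) sw, h3, mul_assoc]
    rw [this, hf.iw _ _ (iw_sbs hvu hve)]

theorem asy : S_ASY := by
  intro _ f hf b g hb
  obtain ⟨a, x, d, rfl⟩ := ex_bor b hb
  obtain ⟨a', x', d', i, hi, hg⟩ := iwd g
  -- the recursions
  have hrel : ∀ n : ℕ, f (bor (Tu ^ n) 0 1) + 2 * f (bor (Tu ^ n) 0 1 * sw) = -1 := by
    intro n
    have h1 := hf.rel (bor (Tu ^ n) 0 1)
    have h2 : bor (Tu ^ n) 0 1 * (nu 1 * sw) = bor 1 (io (X ^ n)) 1 * (bor (Tu ^ n) 0 1 * sw) := by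
      rw [← mul_assoc, ← mul_assoc]
      congr 1
      unfold nu
      rw [bor_mul, bor_mul]
      congr 1
      · simp
      · simp only [Units.val_one, one_mul, mul_one, mul_zero, zero_add, add_zero]
        change _ = algebraMap K Kinf (algebraMap R K (X ^ n))
        rw [map_pow, map_pow, Units.val_pow_eq_pow_val, RatFunc.algebraMap_X]
        rfl
    rw [h2, left_nu hf] at h1
    linear_combination h1
  have hw : ∀ n : ℕ, f (bor (Tu ^ n) 0 1) + f (bor (Tu ^ (n + 1)) 0 1 * sw) = -1 := by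
    intro n
    have h1 := hf.w (bor (Tu ^ n) 0 1)
    have h2 : bor (Tu ^ (n + 1)) 0 1 * sw = bor (Tu ^ n) 0 1 * ww pinf * bor Tu 0 Tu := by
      apply Units.ext
      ext i j
      fin_cases i <;> fin_cases j <;>
        simp [bor, sw, ww, pinf, Matrix.mul_apply, Fin.sum_univ_two, pow_succ]
    rw [h2, hf.cen]
    exact h1
  have hx : ∀ n : ℕ, 2 * f (bor (Tu ^ n) 0 1) - f (bor (Tu ^ (n + 1)) 0 1) = -1 := by
    intro n
    have h1 := hrel n
    have h2 := hrel (n + 1)
    have h3 := hw n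
    linear_combination 2 * h3 - h2
  have hy : ∀ n : ℕ, 2 * f (bor (Tu ^ n) 0 1 * sw) - f (bor (Tu ^ (n + 1)) 0 1 * sw) = 0 := by
    intro n
    have h1 := hrel n
    have h3 := hw n
    linear_combination h1 - h3
  -- valuations
  obtain ⟨m₁, hm₁⟩ : ∃ m : ℤ, Valued.v ((a * a' : Kinfˣ) : Kinf) = exp m := by
    refine ⟨log (Valued.v ((a * a' : Kinfˣ) : Kinf)), (exp_log ?_).symm⟩
    rw [Valuation.ne_zero_iff]
    exact Units.ne_zero _
  obtain ⟨m₂, hm₂⟩ : ∃ m : ℤ, Valued.v ((d * d' : Kinfˣ) : Kinf) = exp m := by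
    refine ⟨log (Valued.v ((d * d' : Kinfˣ) : Kinf)), (exp_log ?_).symm⟩
    rw [Valuation.ne_zero_iff]
    exact Units.ne_zero _
  have hval : ∀ k n : ℕ, (n : ℤ) = k + m₁ - m₂ →
      Valued.v ((a * Tu ^ k * a' : Kinfˣ) : Kinf) =
        Valued.v ((d * 1 * d' : Kinfˣ) : Kinf) * exp (n : ℤ) := by
    intro k n hn
    rw [mul_one, hm₂, mul_right_comm, Units.val_mul, map_mul, hm₁, val_Tu_pow, ← WithZero.exp_add,
      ← WithZero.exp_add]
    congr 1
    omega
  refine ⟨(m₂ - m₁).toNat, fun k hk => ?_⟩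
  obtain ⟨n, hn⟩ : ∃ n : ℕ, (n : ℤ) = k + m₁ - m₂ := ⟨(k + m₁ - m₂).toNat, by omega⟩
  have hn1 : ((n + 1 : ℕ) : ℤ) = (k + 1 : ℕ) + m₁ - m₂ := by push_cast; omega
  have e1 : ∀ k : ℕ, bor a x d * bor (Tu ^ k) 0 1 * bor a' x' d' =
      bor (a * Tu ^ k * a') ((a * Tu ^ k : Kinfˣ) * x' + (a * 0 + x * (1 : Kinfˣ)) * d')
        (d * 1 * d') := by
    intro k
    rw [bor_mul, bor_mul]
  rcases hg with ⟨hc, hg⟩ | ⟨hc, hg⟩
  · rw [if_pos hc, hg, ← mul_assoc, ← mul_assoc, hf.iw _ _ hi, hf.iw _ _ hi, e1, e1,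
      (val_ut hf _ _ _ n (hval k n hn)).1, (val_ut hf _ _ _ (n + 1) (hval (k + 1) (n + 1) hn1)).1]
    exact hx n
  · have e2 : ∀ k : ℕ, f (bor a x d * bor (Tu ^ k) 0 1 * (bor a' x' d' * sw * i)) =
        f (bor a x d * bor (Tu ^ k) 0 1 * bor a' x' d' * sw) := by
      intro k
      rw [← mul_assoc, hf.iw _ _ hi, ← mul_assoc]
    rw [if_neg hc, hg, e2, e2, e1, e1,
      (val_ut hf _ _ _ n (hval k n hn)).2, (val_ut hf _ _ _ (n + 1) (hval (k + 1) (n + 1) hn1)).2]
    exact hy n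

end Pool.Agent.W2helper46.LL
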