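import Pool.Agent.W2helper63.LL.Stm

/-!
# PIECE CN: class number one
-/

set_option autoImplicit false

noncomputable section

namespace Pool.Agent.W2helper46.LL

open IsDedekindDomain Polynomial Matrix WithZero
open Pool.Agent.W2helper63.LL
open scoped Classical

theorem exists_gen (v : Pl) : ∃ g : R, g ≠ 0 ∧ v.asIdeal = Ideal.span {g} := by
  obtain ⟨g, hg⟩ := (IsPrincipalIdealRing.principal v.asIdeal).principal
  refine ⟨g, ?_, hg⟩
  rintro rfl
  apply v.ne_bot
  rw [hg]
  simp

/-- a generator -/
def gn (v : Pl) : R := (exists_gen v).choose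

theorem gn_ne (v : Pl) : gn v ≠ 0 := (exists_gen v).choose_spec.1

theorem gn_span (v : Pl) : v.asIdeal = Ideal.span {gn v} := (exists_gen v).choose_spec.2

theorem val_gn (v : Pl) : v.valuation K (algebraMap R K (gn v)) = exp (-1 : ℤ) := by
  rw [HeightOneSpectrum.valuation_of_algebraMap]
  exact v.intValuation_singleton (gn_ne v) (gn_span v)

theorem val_gn_ne {v w : Pl} (h : w ≠ v) : w.valuation K (algebraMap R K (gn v)) = 1 := by
  rw [HeightOneSpectrum.valuation_eq_one_iff_notMem]
  intro hm
  apply h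
  have h1 : v.asIdeal ≤ w.asIdeal := by
    rw [gn_span v, Ideal.span_singleton_le_iff_mem]
    exact hm
  exact HeightOneSpectrum.ext (v.isMaximal.eq_of_le w.isPrime.ne_top h1).symm

theorem gnK_ne (v : Pl) : algebraMap R K (gn v) ≠ 0 := by
  rw [Ne, FaithfulSMul.algebraMap_eq_zero_iff]
  exact gn_ne v

/-- **CN** -/
theorem cn : S_CN := by
  intro a
  have ha := (FiniteAdeleRing.isUnit_iff (a := (a : Af))).1 a.isUnit
  obtain ⟨h0, h1⟩ := ha
  rw [Filter.eventually_cofinite] at h1
  set S := h1.toFinset with hS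
  refine ⟨∏ v ∈ S, (algebraMap R K (gn v)) ^ (-(log (Valued.v ((a : Af) v)))), ?_, ?_⟩
  · exact Finset.prod_ne_zero_iff.2 fun v _ => zpow_ne_zero _ (gnK_ne v)
  · intro w
    have hw0 : Valued.v ((a : Af) w) ≠ 0 := (Valuation.ne_zero_iff _).2 (h0 w)
    rw [map_prod]
    by_cases hw : w ∈ S
    · rw [Finset.prod_eq_single w]
      · rw [map_zpow₀, val_gn, ← WithZero.exp_zsmul, smul_eq_mul]
        rw [show (-log (Valued.v ((a : Af) w))) * (-1 : ℤ) = log (Valued.v ((a : Af) w)) by ring]
        rw [exp_log hw0]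
      · intro v _ hv
        rw [map_zpow₀, val_gn_ne (Ne.symm hv), _root_.one_zpow]
      · intro h
        exact absurd hw h
    · rw [Finset.prod_eq_one]
      · rw [hS, Set.Finite.mem_toFinset] at hw
        simpa using hw
      · intro v hv
        have : w ≠ v := by
          rintro rfl
          exact hw hv
        rw [map_zpow₀, val_gn_ne this, _root_.one_zpow]

end Pool.Agent.W2helper46.LL
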